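import Pool.Agent.TH468.BE.Final

set_option autoImplicit false

/-! MP_e9a49a_co (BA): local form of the theorem on sparse configurations in `BE/Final.lean`. -/

open Finset
open scoped Pointwise

namespace Pool.Agent.TH468.BE

open Pool.Agent.H268R3.BE (tr card_tr tr_injective tr_tr tr_mono mem_tr)

/-- Local form of the main theorem: one vertex `b` of large degree with trivial stabiliser. -/
theorem main_local (r : ℕ) (hr : 3 ≤ r) (φ : ℕ → ℕ → ℕ) (l L : ℕ) (η : ℝ) (hη : 0 < η) :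
    ∃ K : ℕ, 1 ≤ K ∧ ∀ k : ℕ, K ≤ k → ∃ C : ℕ, ∀ (V A : Type) [Fintype V] [DecidableEq V]
      [Group A] [MulAction A V] (H : Finset (Finset V)), Tower φ l A → C * L ≤ Nat.card A →
      (∀ e ∈ H, e.card = r) → (∀ (a : A), ∀ e ∈ H, e.image (fun x => a • x) ∈ H) →
      ∀ b : V, (∀ a : A, a • b = b → a = 1) →
      (C : ℝ) * (orbits A V L : ℝ) ^ (1 + η) < (#{e ∈ H | b ∈ e} : ℕ) →
      ∃ E ⊆ H, E.card = k ∧ K * (E.biUnion id).card + k ≤ K * ((r - 2) * k) := by
  obtain ⟨ψ, hψ⟩ := Tower.exists_folner φ l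
  obtain ⟨R, hR1, hR⟩ : ∃ R : ℕ, 1 ≤ R ∧ 1 / (R : ℝ) ≤ η := by
    refine ⟨⌈1 / η⌉₊ + 1, by omega, ?_⟩
    have h1 := Nat.le_ceil (1 / η)
    have h2 : 1 / η ≤ ((⌈1 / η⌉₊ + 1 : ℕ) : ℝ) := by push_cast; linarith
    have h3 : (0 : ℝ) < ((⌈1 / η⌉₊ + 1 : ℕ) : ℝ) := by positivity
    rw [div_le_iff₀ h3]
    rw [div_le_iff₀ hη] at h2
    nlinarith
  set r₀ := 12 * (R * R) + 6 * r + 4 with hr₀
  set c := 6 * r * (4 * (R * R) + 2 * r + 1) with hc
  set N := (c * L + 1) * ψ r₀ (r₀ + 1) with hN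
  set K₀ := N * (4 * (R * R) + 2 * r + 1) + 1 with hK₀
  refine ⟨4 * K₀ * K₀ + 2 * K₀, by nlinarith, ?_⟩
  intro k hk
  set C := (2 * (2 * R + 1 + 2 * r) + k * r) + (c + 1) * (ψ r₀ (r₀ + 1) * ψ r₀ (r₀ + 1)) + 2
    with hCdef
  refine ⟨C, ?_⟩
  intro V A _ _ _ _ H hA hCA hunif hinv b hfree hH
  classical
  -- the group is finite and the orbit of `b` is large
  have hinjb : Function.Injective (fun a : A => a • b) := by
    intro a a' h
    simp only at h
    have h3 : a'⁻¹ * a = 1 := by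
      apply hfree
      rw [mul_smul, h, inv_smul_smul]
    exact (eq_of_inv_mul_eq_one h3).symm
  have hfinA : Finite A := Finite.of_injective _ hinjb
  have hApos : 0 < Nat.card A := Nat.card_pos
  have horb : (MulAction.orbit A b).ncard = Nat.card A := by
    have h1 : MulAction.orbit A b = Set.range (fun a : A => a • b) := rfl
    rw [h1, ← Set.image_univ, Set.ncard_image_of_injective _ hinjb, Set.ncard_univ]
  have hLb : L < (MulAction.orbit A b).ncard := by
    rw [horb]
    rcases Nat.eq_zero_or_pos L with h | h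
    · rw [h]; exact hApos
    · have : 2 * L ≤ C * L := Nat.mul_le_mul_right _ (by omega)
      omega
  -- the large orbits
  let Λ : Type := {O : Set V // (∃ x : V, O = MulAction.orbit A x) ∧ L < O.ncard}
  have hfinΛ : Fintype Λ := Fintype.ofFinite _
  have hq : orbits A V L = Fintype.card Λ := by
    rw [← Nat.card_eq_fintype_card]
    rfl
  rw [hq] at hH
  let lab : V → Λ := fun x =>
    if h : L < (MulAction.orbit A x).ncard then ⟨MulAction.orbit A x, ⟨x, rfl⟩, h⟩
    else ⟨MulAction.orbit A b, ⟨b, rfl⟩, hLb⟩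
  set n := Fintype.card V with hndef
  set q := Fintype.card Λ with hqdef
  have hq1 : 1 ≤ q := Fintype.card_pos_iff.mpr ⟨lab b⟩
  have hn1 : 1 ≤ n := Fintype.card_pos_iff.mpr ⟨b⟩
  have hqpos : (0 : ℝ) < q := by exact_mod_cast hq1
  -- the degree of `b`
  have hdeg : (C : ℝ) * (q : ℝ) ^ (1 + η) < (#{e ∈ H | b ∈ e} : ℕ) := hH
  have hRpos : (0 : ℝ) < R := by exact_mod_cast hR1
  set d := ⌊(q : ℝ) ^ (1 / (R : ℝ))⌋₊ + 1 with hd
  have hqR : (1 : ℝ) ≤ (q : ℝ) ^ (1 / (R : ℝ)) :=
    Real.one_le_rpow (by exact_mod_cast hq1) (by positivity)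
  have hd1 : (q : ℝ) ^ (1 / (R : ℝ)) < d := by
    rw [hd]; push_cast; exact Nat.lt_floor_add_one _
  have hd2 : (d : ℝ) ≤ 2 * (q : ℝ) ^ (1 / (R : ℝ)) := by
    rw [hd]; push_cast
    have := Nat.floor_le (show (0 : ℝ) ≤ (q : ℝ) ^ (1 / (R : ℝ)) by positivity)
    linarith
  have hd3 : q < d ^ R := by
    have h1 : ((q : ℝ) ^ (1 / (R : ℝ))) ^ R < (d : ℝ) ^ R :=
      pow_lt_pow_left₀ hd1 (by positivity) (by omega)
    rw [← Real.rpow_natCast, ← Real.rpow_mul (by positivity), one_div,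
      inv_mul_cancel₀ hRpos.ne', Real.rpow_one] at h1
    exact_mod_cast h1
  have hgrow : ∀ G : Finset A, G.card ≤ r₀ → ∃ F : Finset A,
      c * L < F.card ∧ F.card ≤ N ∧ r₀ * (F * G).card < (r₀ + 1) * F.card := by
    refine exists_F (hψ A hA) r₀ c L hApos ?_
    refine le_trans (Nat.mul_le_mul_right _ ?_) hCA
    omega
  refine multi (A := A) H hinv hr hunif b hfree (K₀ := K₀)
    (D := (2 * R + 1 + 2 * r) * (q * d)) (by omega) ?_ hk ?_
  · intro H' hH' hinv' hdeg'
    by_contra hcon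
    push Not at hcon
    have h1 := degree_bound (Ω := Λ) H' b hfree hinv'
      (fun x => ¬ L < (MulAction.orbit A x).ncard) (L := L)
      (fun x hx T => by
        push Not at hx
        refine le_trans ?_ hx
        rw [← Set.ncard_coe_finset]
        refine Set.ncard_le_ncard ?_ (Set.toFinite _)
        intro y hy
        rw [mem_coe, mem_image] at hy
        obtain ⟨a, -, rfl⟩ := hy
        exact MulAction.mem_orbit _ _)
      lab
      (fun x y hx hy hxy => by
        rw [not_not] at hx hy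
        have h2 : MulAction.orbit A x = MulAction.orbit A y := by
          simp only [lab, hx, hy, dif_pos] at hxy
          exact congrArg Subtype.val hxy
        have h3 : y ∈ MulAction.orbit A x := by
          rw [h2]; exact MulAction.mem_orbit_self y
        obtain ⟨a, ha⟩ := h3
        exact ⟨a, ha⟩)
      (fun a => by
        have h2 : MulAction.orbit A (a • b) = MulAction.orbit A b :=
          MulAction.orbit_eq_iff.mpr (MulAction.mem_orbit _ _)
        simp only [lab, h2])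
      hr (fun e he => hunif e (hH' he)) hR1 hd3 hgrow
      (K := K₀) (by omega) (fun E hE hEne hEK => hcon E hE hEne hEK)
    exact absurd hdeg' (not_lt.mpr h1)
  · -- the numbers
    have h1 : ((((2 * R + 1 + 2 * r) * (q * d) + k * r : ℕ)) : ℝ) < (#{e ∈ H | b ∈ e} : ℕ) := by
      refine lt_of_le_of_lt ?_ hdeg
      push_cast
      have e0 : (q : ℝ) ^ (1 / (R : ℝ)) ≤ (q : ℝ) ^ η :=
        Real.rpow_le_rpow_of_exponent_le (by exact_mod_cast hq1) hR
      have e1 : (d : ℝ) ≤ 2 * (q : ℝ) ^ η := by linarith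
      have e2 : (1 : ℝ) ≤ (q : ℝ) ^ η := hqR.trans e0
      have e3 : (q : ℝ) ^ (1 + η) = q * (q : ℝ) ^ η := by
        rw [Real.rpow_add hqpos, Real.rpow_one]
      rw [e3]
      set X := (q : ℝ) ^ η with hX
      have hq1' : (1 : ℝ) ≤ q := by exact_mod_cast hq1
      have hC1 : (2 * (2 * (R : ℝ) + 1 + 2 * r) + k * r) ≤ C := by
        have : 2 * (2 * R + 1 + 2 * r) + k * r ≤ C := by omega
        exact_mod_cast this
      calc (2 * (R : ℝ) + 1 + 2 * r) * (q * d) + k * r
          ≤ (2 * (R : ℝ) + 1 + 2 * r) * (q * (2 * X)) + k * r * (q * X) := by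
            have f1 : (2 * (R : ℝ) + 1 + 2 * r) * (q * d) ≤
                (2 * (R : ℝ) + 1 + 2 * r) * (q * (2 * X)) := by gcongr
            have f2 : (1 : ℝ) ≤ q * X := by nlinarith
            have f3 : (k : ℝ) * r * 1 ≤ k * r * (q * X) := by gcongr
            linarith
        _ = (2 * (2 * (R : ℝ) + 1 + 2 * r) + k * r) * (q * X) := by ring
        _ ≤ C * (q * X) := by gcongr
    exact_mod_cast h1

end Pool.Agent.TH468.BE
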