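import Pool.Agent.TH669.AD.Free
import Pool.Agent.TH468.BA.Local

set_option autoImplicit false

/-!
MP_e9a49a_co, MP_c82047_co (BA): sparse configurations in uniform hypergraphs which are invariant
under an arbitrary group of good order.
-/

namespace Pool.Agent.TH468.BA

open Finset Pool.Agent.TH468.BE

/-- a free action has `|V| / |A|` orbits -/
theorem orbits_mul {V A : Type} [Fintype V] [Group A] [Finite A] [MulAction A V]
    (hfree : ∀ (a : A) (v : V), a • v = v → a = 1) :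
    orbits A V 0 * Nat.card A = Fintype.card V := by
  classical
  have horb : ∀ x : V, (MulAction.orbit A x).ncard = Nat.card A := by
    intro x
    have hinj : Function.Injective (fun a : A => a • x) := by
      intro a a' h
      simp only at h
      have h3 : a'⁻¹ * a = 1 := by
        apply hfree _ x
        rw [mul_smul, h, inv_smul_smul]
      exact (eq_of_inv_mul_eq_one h3).symm
    have h1 : MulAction.orbit A x = Set.range (fun a : A => a • x) := rfl
    rw [h1, ← Set.image_univ, Set.ncard_image_of_injective _ hinj, Set.ncard_univ]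
  set I : Finset (Set V) := univ.image (fun x : V => MulAction.orbit A x) with hI
  have h1 : orbits A V 0 = I.card := by
    unfold orbits
    rw [← Set.ncard_coe_finset]
    congr 1
    ext O
    simp only [Set.mem_setOf_eq, hI, coe_image, coe_univ, Set.image_univ, Set.mem_range]
    constructor
    · rintro ⟨⟨x, rfl⟩, -⟩
      exact ⟨x, rfl⟩
    · rintro ⟨x, rfl⟩
      refine ⟨⟨x, rfl⟩, ?_⟩
      rw [horb]
      exact Nat.card_pos
  have h2 : (univ : Finset V).card = ∑ O ∈ I, (univ.filter fun x => MulAction.orbit A x = O).card :=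
    card_eq_sum_card_fiberwise (fun x _ => mem_image_of_mem _ (mem_univ x))
  have h3 : ∀ O ∈ I, (univ.filter fun x => MulAction.orbit A x = O).card = Nat.card A := by
    intro O hO
    obtain ⟨x, -, rfl⟩ := mem_image.1 hO
    rw [← horb x, ← Set.ncard_coe_finset]
    congr 1
    ext y
    simp only [coe_filter, mem_univ, true_and, Set.mem_setOf_eq]
    exact MulAction.orbit_eq_iff
  rw [h1, ← card_univ, h2, sum_congr rfl h3, sum_const, smul_eq_mul]

/-- the constants -/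
theorem exists_fun : ∃ (K : ℕ → ℝ → ℕ) (C : ℕ → ℝ → ℕ → ℕ), ∀ (r : ℕ) (δ : ℝ), 3 ≤ r → 0 < δ →
    1 ≤ K r δ ∧ ∀ k : ℕ, K r δ ≤ k → ∀ (V A : Type) [Fintype V] [DecidableEq V]
      [Group A] [MulAction A V] (H : Finset (Finset V)), (∀ a b : A, a * b = b * a) →
      (∀ e ∈ H, e.card = r) → (∀ (a : A), ∀ e ∈ H, e.image (fun x => a • x) ∈ H) →
      ∀ b : V, (∀ a : A, a • b = b → a = 1) →
      (C r δ k : ℝ) * (orbits A V 0 : ℝ) ^ (1 + δ) < (#{e ∈ H | b ∈ e} : ℕ) →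
      ∃ E ⊆ H, E.card = k ∧ K r δ * (E.biUnion id).card + k ≤ K r δ * ((r - 2) * k) := by
  have h := fun (r : ℕ) (δ : ℝ) (hr : 3 ≤ r) (hδ : 0 < δ) =>
    main_local r hr (fun _ _ => 0) 0 0 δ hδ
  choose K hK1 hK using h
  choose C hC using hK
  refine ⟨fun r δ => if h : 3 ≤ r ∧ 0 < δ then K r δ h.1 h.2 else 0,
    fun r δ k => if h : 3 ≤ r ∧ 0 < δ then
      if h' : K r δ h.1 h.2 ≤ k then C r δ h.1 h.2 k h' else 0 else 0, ?_⟩
  intro r δ hr hδ
  simp only [hr, hδ, and_self, dif_pos]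
  refine ⟨hK1 r δ hr hδ, ?_⟩
  intro k hk V A _ _ _ _ H hcomm hunif hinv b hb hH
  rw [dif_pos hk] at hH
  exact hC r δ hr hδ k hk V A H (Tower.comm 0 A hcomm) (by simp) hunif hinv b hb hH

/-- the property of the order `m`, with constants `K, C`: see the result files -/
def Sparse (K : ℕ → ℝ → ℕ) (C : ℕ → ℝ → ℕ → ℕ) (m s : ℕ) (B : ℝ) : Prop :=
  ∀ (V G : Type) [Fintype V] [DecidableEq V] [Group G] [Finite G] [MulAction G V],
    Nat.card G ≤ s * m → (∀ v : V, (MulAction.orbit G v).ncard = m) →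
    ∀ (r : ℕ) (H : Finset (Finset V)), 3 ≤ r → (∀ e ∈ H, e.card = r) →
      (∀ (a : G), ∀ e ∈ H, e.image (fun x => a • x) ∈ H) →
    ∀ δ : ℝ, 0 < δ → ∀ k : ℕ, K r δ ≤ k →
      (C r δ k : ℝ) * Fintype.card V * (B * Fintype.card V / m) ^ (1 + δ) < H.card ∨
        (∃ b : V, (C r δ k : ℝ) * (B * Fintype.card V / m) ^ (1 + δ) <
          (#{e ∈ H | b ∈ e} : ℕ)) →
      ∃ E ⊆ H, E.card = k ∧ K r δ * (E.biUnion id).card + k ≤ K r δ * ((r - 2) * k)

theorem sparse_of_good {K : ℕ → ℝ → ℕ} {C : ℕ → ℝ → ℕ → ℕ}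
    (h : ∀ (r : ℕ) (δ : ℝ), 3 ≤ r → 0 < δ →
    1 ≤ K r δ ∧ ∀ k : ℕ, K r δ ≤ k → ∀ (V A : Type) [Fintype V] [DecidableEq V]
      [Group A] [MulAction A V] (H : Finset (Finset V)), (∀ a b : A, a * b = b * a) →
      (∀ e ∈ H, e.card = r) → (∀ (a : A), ∀ e ∈ H, e.image (fun x => a • x) ∈ H) →
      ∀ b : V, (∀ a : A, a • b = b → a = 1) →
      (C r δ k : ℝ) * (orbits A V 0 : ℝ) ^ (1 + δ) < (#{e ∈ H | b ∈ e} : ℕ) →
      ∃ E ⊆ H, E.card = k ∧ K r δ * (E.biUnion id).card + k ≤ K r δ * ((r - 2) * k))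
    {y s m : ℕ} {B : ℝ} (hB : 2 ≤ B) (hsy : s ≤ y)
    (hg : Pool.Agent.TH669.AD.GoodDeg y s B m) (hm : 0 < m) : Sparse K C m s B := by
  intro V G _ _ _ _ _ hG horb r H hr hunif hinv δ hδ k hk hH
  classical
  have hX : (0 : ℝ) ≤ (C r δ k : ℝ) * (B * Fintype.card V / m) ^ (1 + δ) := by positivity
  -- a vertex of large degree
  obtain ⟨b, hb⟩ : ∃ b : V, (C r δ k : ℝ) * (B * Fintype.card V / m) ^ (1 + δ) <
      (#{e ∈ H | b ∈ e} : ℕ) := by
    rcases hH with hH | hH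
    · by_contra hcon
      push Not at hcon
      have h1 := sum_card_bipartiteAbove_eq_sum_card_bipartiteBelow
        (s := (univ : Finset V)) (t := H) (fun b e => b ∈ e)
      simp only [bipartiteAbove, bipartiteBelow] at h1
      have h2 : ∀ e ∈ H, #{b ∈ (univ : Finset V) | b ∈ e} = r := by
        intro e he
        rw [← hunif e he]
        congr 1
        ext b
        simp
      rw [sum_congr rfl h2, sum_const, smul_eq_mul] at h1
      have h3 : ((∑ b : V, #{e ∈ H | b ∈ e} : ℕ) : ℝ) ≤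
          ∑ _b : V, (C r δ k : ℝ) * (B * Fintype.card V / m) ^ (1 + δ) := by
        push_cast
        exact sum_le_sum fun b _ => hcon b
      rw [h1, sum_const, card_univ, nsmul_eq_mul] at h3
      push_cast at h3
      have h4 : (3 : ℝ) ≤ r := by exact_mod_cast hr
      have h5 : (0 : ℝ) ≤ (H.card : ℝ) := Nat.cast_nonneg _
      have h6 : (C r δ k : ℝ) * Fintype.card V * (B * Fintype.card V / m) ^ (1 + δ) =
        (Fintype.card V : ℝ) * ((C r δ k : ℝ) * (B * Fintype.card V / m) ^ (1 + δ)) := by ring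
      rw [h6] at hH
      nlinarith
    · exact hH
  have hne : Nonempty V := ⟨b⟩
  obtain ⟨c, hfree, hc⟩ := Pool.Agent.TH669.AD.exists_free hsy hg hm G V horb hG
  have hfree' : ∀ (a : Subgroup.zpowers c) (v : V), a • v = v → a = 1 :=
    fun a v hv => Subtype.ext (hfree a.1 a.2 v hv)
  have hcomm : ∀ a b : Subgroup.zpowers c, a * b = b * a := fun a b => by
      obtain ⟨i, hi⟩ := Subgroup.mem_zpowers_iff.1 a.2
      obtain ⟨j, hj⟩ := Subgroup.mem_zpowers_iff.1 b.2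
      apply Subtype.ext
      rw [Subgroup.coe_mul, Subgroup.coe_mul, ← hi, ← hj, ← zpow_add, ← zpow_add, add_comm]
  have horbits := orbits_mul (V := V) (A := Subgroup.zpowers c) hfree'
  refine (h r δ hr hδ).2 k hk V (Subgroup.zpowers c) H hcomm hunif
    (fun a e he => hinv a.1 e he) b (fun a ha => hfree' a b ha) ?_
  refine lt_of_le_of_lt ?_ hb
  have hm0 : (0 : ℝ) < m := by exact_mod_cast hm
  have hq : (orbits (Subgroup.zpowers c) V 0 : ℝ) ≤ B * Fintype.card V / m := by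
    rw [le_div_iff₀ hm0, ← horbits]
    push_cast
    have h1 : (0 : ℝ) ≤ (orbits (Subgroup.zpowers c) V 0 : ℝ) := Nat.cast_nonneg _
    calc (orbits (Subgroup.zpowers c) V 0 : ℝ) * m
        ≤ (orbits (Subgroup.zpowers c) V 0 : ℝ) * (B * (Nat.card (Subgroup.zpowers c) : ℝ)) :=
          mul_le_mul_of_nonneg_left hc h1
      _ = _ := by ring
  have h1 : (orbits (Subgroup.zpowers c) V 0 : ℝ) ^ (1 + δ) ≤
      (B * Fintype.card V / m) ^ (1 + δ) :=
    Real.rpow_le_rpow (Nat.cast_nonneg _) hq (by linarith)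
  exact mul_le_mul_of_nonneg_left h1 (by positivity)

/-- all but few orders are good -/
theorem few {K : ℕ → ℝ → ℕ} {C : ℕ → ℝ → ℕ → ℕ}
    (h : ∀ (r : ℕ) (δ : ℝ), 3 ≤ r → 0 < δ →
    1 ≤ K r δ ∧ ∀ k : ℕ, K r δ ≤ k → ∀ (V A : Type) [Fintype V] [DecidableEq V]
      [Group A] [MulAction A V] (H : Finset (Finset V)), (∀ a b : A, a * b = b * a) →
      (∀ e ∈ H, e.card = r) → (∀ (a : A), ∀ e ∈ H, e.image (fun x => a • x) ∈ H) →
      ∀ b : V, (∀ a : A, a • b = b → a = 1) →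
      (C r δ k : ℝ) * (orbits A V 0 : ℝ) ^ (1 + δ) < (#{e ∈ H | b ∈ e} : ℕ) →
      ∃ E ⊆ H, E.card = k ∧ K r δ * (E.biUnion id).card + k ≤ K r δ * ((r - 2) * k))
    (η : ℝ) (hη : 0 < η) : ∃ M : ℕ, ∀ x s : ℕ, 8 ≤ x → 1 ≤ s →
      ({m : ℕ | 1 ≤ m ∧ m ≤ x ∧ ¬ Sparse K C m s ((s * Real.log x) ^ M)}.ncard : ℝ) ≤ η * x := by
  obtain ⟨M, hM⟩ := Pool.Agent.TH669.AD.few_bad_pow η hη
  refine ⟨M, fun x s hx hs => ?_⟩
  obtain ⟨y, hsy, hU, hy⟩ := hM x s hx hs
  refine le_trans ?_ hy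
  have hfin : {m : ℕ | 1 ≤ m ∧ m ≤ x ∧
        ¬ Pool.Agent.TH669.AD.GoodDeg y s (((s : ℝ) * Real.log x) ^ M) m}.Finite :=
    (Set.finite_Icc 1 x).subset fun n hn => ⟨hn.1, hn.2.1⟩
  refine Nat.cast_le.2 (Set.ncard_le_ncard ?_ hfin)
  rintro m ⟨h1, h2, h3⟩
  exact ⟨h1, h2, fun hg => h3 (sparse_of_good h hU hsy hg h1)⟩

end Pool.Agent.TH468.BA
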