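import Pool.Agent.TH468.BA.Basic

set_option autoImplicit false

/-!
MP_c82047_co (BA): triple systems which are invariant under an arbitrary group of good order, all
orbits having `1` or `m` elements.
-/

namespace Pool.Agent.TH468.BA

open Finset Pool.Agent.TH468.BE

/-- few orbits with more than one element -/
theorem orbits_one {V A : Type} [Fintype V] [Group A] [Finite A] [MulAction A V] (W : Finset V)
    (hfree : ∀ (a : A), ∀ v ∈ W, a • v = v → a = 1) (hfix : ∀ (a : A), ∀ v ∉ W, a • v = v) :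
    orbits A V 1 * Nat.card A ≤ W.card := by
  classical
  have horb : ∀ x ∈ W, (MulAction.orbit A x).ncard = Nat.card A := by
    intro x hx
    have hinj : Function.Injective (fun a : A => a • x) := by
      intro a a' h
      simp only at h
      have h3 : a'⁻¹ * a = 1 := by
        apply hfree _ x hx
        rw [mul_smul, h, inv_smul_smul]
      exact (eq_of_inv_mul_eq_one h3).symm
    have h1 : MulAction.orbit A x = Set.range (fun a : A => a • x) := rfl
    rw [h1, ← Set.image_univ, Set.ncard_image_of_injective _ hinj, Set.ncard_univ]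
  have hW : ∀ x, 1 < (MulAction.orbit A x).ncard → x ∈ W := by
    intro x hx
    by_contra h
    have h1 : MulAction.orbit A x = {x} := by
      ext y
      constructor
      · rintro ⟨a, rfl⟩
        exact hfix a x h
      · intro hy
        rw [Set.mem_singleton_iff] at hy
        rw [hy]
        exact MulAction.mem_orbit_self x
    rw [h1, Set.ncard_singleton] at hx
    omega
  set W' : Finset V := W.filter (fun x => 1 < (MulAction.orbit A x).ncard) with hW'
  set I : Finset (Set V) := W'.image (fun x : V => MulAction.orbit A x) with hI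
  have h1 : orbits A V 1 = I.card := by
    unfold orbits
    rw [← Set.ncard_coe_finset]
    congr 1
    ext O
    simp only [Set.mem_setOf_eq, hI, coe_image, Set.mem_image, mem_coe, hW', mem_filter]
    constructor
    · rintro ⟨⟨x, rfl⟩, h⟩
      exact ⟨x, ⟨hW x h, h⟩, rfl⟩
    · rintro ⟨x, ⟨-, h⟩, rfl⟩
      exact ⟨⟨x, rfl⟩, h⟩
  have h2 : W'.card = ∑ O ∈ I, (W'.filter fun x => MulAction.orbit A x = O).card :=
    card_eq_sum_card_fiberwise (fun x hx => mem_image_of_mem _ hx)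
  have h3 : ∀ O ∈ I, (W'.filter fun x => MulAction.orbit A x = O).card = Nat.card A := by
    intro O hO
    obtain ⟨x, hx, rfl⟩ := mem_image.1 hO
    rw [hW', mem_filter] at hx
    rw [← horb x hx.1, ← Set.ncard_coe_finset]
    congr 1
    ext y
    simp only [coe_filter, hW', mem_filter, Set.mem_setOf_eq]
    constructor
    · rintro ⟨-, h⟩
      rw [← h]
      exact MulAction.mem_orbit_self y
    · intro hy
      have h4 : MulAction.orbit A y = MulAction.orbit A x := MulAction.orbit_eq_iff.2 hy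
      have h5 : 1 < (MulAction.orbit A y).ncard := by rw [h4]; exact hx.2
      exact ⟨⟨hW y h5, h5⟩, h4⟩
  have h4 : W'.card = I.card * Nat.card A := by
    rw [h2, sum_congr rfl h3, sum_const, smul_eq_mul]
  rw [h1, ← h4]
  exact card_le_card (filter_subset _ _)

/-- the constants, for triples -/
theorem exists_fun_triple : ∃ (K : ℝ → ℕ) (C : ℝ → ℕ → ℕ), ∀ (δ : ℝ), 0 < δ →
    1 ≤ K δ ∧ ∀ k : ℕ, K δ ≤ k → k * k + 1 ≤ C δ k ∧ ∀ (V A : Type) [Fintype V] [DecidableEq V]
      [Group A] [MulAction A V] (H : Finset (Finset V)), (∀ a b : A, a * b = b * a) →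
      C δ k ≤ Nat.card A →
      (∀ e ∈ H, e.card = 3) → (∀ (a : A), ∀ e ∈ H, e.image (fun x => a • x) ∈ H) →
      ∀ b : V, (∀ a : A, a • b = b → a = 1) →
      (C δ k : ℝ) * (orbits A V 1 : ℝ) ^ (1 + δ) < (#{e ∈ H | b ∈ e} : ℕ) →
      ∃ E ⊆ H, E.card = k + k / K δ ∧
        K δ * (E.biUnion id).card + (k + k / K δ) ≤ K δ * ((3 - 2) * (k + k / K δ)) := by
  have h := fun (δ : ℝ) (hδ : 0 < δ) =>
    main_local 3 le_rfl (fun _ _ => 0) 0 1 δ hδ
  choose K hK1 hK using h
  choose C hC using hK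
  refine ⟨fun δ => if h : 0 < δ then K δ h else 0,
    fun δ k => if h : 0 < δ then
      if h' : K δ h ≤ k + k / K δ h then C δ h (k + k / K δ h) h' + k * k + 1 else 0 else 0, ?_⟩
  intro δ hδ
  simp only [hδ, dif_pos]
  refine ⟨hK1 δ hδ, ?_⟩
  intro k hk
  have hk' : K δ hδ ≤ k + k / K δ hδ := le_trans hk (Nat.le_add_right _ _)
  rw [dif_pos hk']
  refine ⟨by omega, ?_⟩
  intro V A _ _ _ _ H hcomm hA hunif hinv b hb hH
  refine hC δ hδ _ hk' V A H (Tower.comm 0 A hcomm) (by omega) hunif hinv b hb ?_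
  refine lt_of_le_of_lt ?_ hH
  refine mul_le_mul_of_nonneg_right ?_ (by positivity)
  have : C δ hδ (k + k / K δ hδ) hk' ≤ C δ hδ (k + k / K δ hδ) hk' + k * k + 1 := by omega
  exact_mod_cast this

/-- the property of the order `m`, for triples -/
def SparseTriple (K : ℝ → ℕ) (C : ℝ → ℕ → ℕ) (m s : ℕ) (B : ℝ) : Prop :=
  ∀ (V G : Type) [Fintype V] [DecidableEq V] [Group G] [Finite G] [MulAction G V],
    Nat.card G ≤ s * m →
    (∀ v : V, (MulAction.orbit G v).ncard = m ∨ (MulAction.orbit G v).ncard = 1) →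
    ∀ H : Finset (Finset V), (∀ e ∈ H, e.card = 3) →
      (∀ (a : G), ∀ e ∈ H, e.image (fun x => a • x) ∈ H) →
    ∀ δ : ℝ, 0 < δ → ∀ k : ℕ, K δ ≤ k → (C δ k : ℝ) * B ≤ m →
    ∀ w : ℕ, w = {v : V | (MulAction.orbit G v).ncard = m}.ncard →
      (C δ k : ℝ) * w * (B * w / m) ^ (1 + δ) <
          ({e : Finset V | e ∈ H ∧ ∃ v ∈ e, (MulAction.orbit G v).ncard = m}.ncard : ℕ) ∨
        (∃ v : V, (MulAction.orbit G v).ncard = m ∧
          (C δ k : ℝ) * (B * w / m) ^ (1 + δ) < ((H.filter fun e => v ∈ e).card : ℕ)) →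
      ∃ S : Finset V, S.card = k ∧ k + k / K δ ≤ (H.filter fun e => e ⊆ S).card

theorem triple_of_good {K : ℝ → ℕ} {C : ℝ → ℕ → ℕ}
    (h : ∀ (δ : ℝ), 0 < δ →
    1 ≤ K δ ∧ ∀ k : ℕ, K δ ≤ k → k * k + 1 ≤ C δ k ∧ ∀ (V A : Type) [Fintype V] [DecidableEq V]
      [Group A] [MulAction A V] (H : Finset (Finset V)), (∀ a b : A, a * b = b * a) →
      C δ k ≤ Nat.card A →
      (∀ e ∈ H, e.card = 3) → (∀ (a : A), ∀ e ∈ H, e.image (fun x => a • x) ∈ H) →
      ∀ b : V, (∀ a : A, a • b = b → a = 1) →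
      (C δ k : ℝ) * (orbits A V 1 : ℝ) ^ (1 + δ) < (#{e ∈ H | b ∈ e} : ℕ) →
      ∃ E ⊆ H, E.card = k + k / K δ ∧
        K δ * (E.biUnion id).card + (k + k / K δ) ≤ K δ * ((3 - 2) * (k + k / K δ)))
    {y s m : ℕ} {B : ℝ} (hB : 2 ≤ B) (hsy : s ≤ y)
    (hg : Pool.Agent.TH669.AD.GoodDeg y s B m) (hm : 0 < m) : SparseTriple K C m s B := by
  intro V G _ _ _ _ _ hG horb H hunif hinv δ hδ k hk hCm w hw hH
  classical
  have hB0 : (0 : ℝ) < B := by linarith
  have hm0 : (0 : ℝ) < m := by exact_mod_cast hm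
  set W : Finset V := univ.filter (fun v => (MulAction.orbit G v).ncard = m) with hW
  have hwW : w = W.card := by
    rw [hw, ← Set.ncard_coe_finset]
    congr 1
    ext v
    simp [hW]
  have hX : (0 : ℝ) ≤ (C δ k : ℝ) * (B * w / m) ^ (1 + δ) := by positivity
  -- a vertex of large degree
  obtain ⟨b, hbW, hb⟩ : ∃ b : V, (MulAction.orbit G b).ncard = m ∧
      (C δ k : ℝ) * (B * w / m) ^ (1 + δ) < (#{e ∈ H | b ∈ e} : ℕ) := by
    rcases hH with hH | hH
    · by_contra hcon
      push Not at hcon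
      have h1 : {e : Finset V | e ∈ H ∧ ∃ v ∈ e, (MulAction.orbit G v).ncard = m}.ncard ≤
          ∑ v ∈ W, #{e ∈ H | v ∈ e} := by
        refine le_trans ?_ card_biUnion_le
        rw [← Set.ncard_coe_finset]
        refine Set.ncard_le_ncard ?_ (Set.toFinite _)
        rintro e ⟨he, v, hv, hv'⟩
        rw [mem_coe, mem_biUnion]
        exact ⟨v, mem_filter.2 ⟨mem_univ _, hv'⟩, mem_filter.2 ⟨he, hv⟩⟩
      have h2 : ((∑ v ∈ W, #{e ∈ H | v ∈ e} : ℕ) : ℝ) ≤
          ∑ _v ∈ W, (C δ k : ℝ) * (B * w / m) ^ (1 + δ) := by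
        push_cast
        refine sum_le_sum fun v hv => hcon v ?_
        rw [hW, mem_filter] at hv
        exact hv.2
      rw [sum_const, nsmul_eq_mul, ← hwW] at h2
      have h3 : ({e : Finset V | e ∈ H ∧ ∃ v ∈ e, (MulAction.orbit G v).ncard = m}.ncard : ℝ) ≤
          ((∑ v ∈ W, #{e ∈ H | v ∈ e} : ℕ) : ℝ) := by exact_mod_cast h1
      have h4 : (C δ k : ℝ) * w * (B * w / m) ^ (1 + δ) =
        (w : ℝ) * ((C δ k : ℝ) * (B * w / m) ^ (1 + δ)) := by ring
      rw [h4] at hH
      linarith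
    · exact hH
  -- the action on the vertices with large orbits
  let M : SubMulAction G V :=
    { carrier := {v | (MulAction.orbit G v).ncard = m}
      smul_mem' := by
        intro a v hv
        have h1 : MulAction.orbit G (a • v) = MulAction.orbit G v :=
          MulAction.orbit_eq_iff.mpr (MulAction.mem_orbit _ _)
        change (MulAction.orbit G (a • v)).ncard = m
        rw [h1]
        exact hv }
  have hMne : Nonempty M := ⟨⟨b, hbW⟩⟩
  have horbM : ∀ v : M, (MulAction.orbit G v).ncard = m := by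
    intro v
    have h1 := SubMulAction.val_image_orbit (p := M) v
    rw [← Set.ncard_image_of_injective (MulAction.orbit G v) Subtype.val_injective, h1]
    exact v.2
  obtain ⟨c, hfree, hc⟩ := Pool.Agent.TH669.AD.exists_free hsy hg hm G M horbM hG
  have hfree' : ∀ (a : Subgroup.zpowers c), ∀ v ∈ W, a • v = v → a = 1 := by
    intro a v hv hav
    rw [hW, mem_filter] at hv
    apply Subtype.ext
    refine hfree a.1 a.2 ⟨v, hv.2⟩ ?_
    apply Subtype.ext
    exact hav
  have hfix : ∀ (a : Subgroup.zpowers c), ∀ v ∉ W, a • v = v := by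
    intro a v hv
    have h1 : (MulAction.orbit G v).ncard = 1 := by
      rcases horb v with h2 | h2
      · exact absurd (show v ∈ W by rw [hW, mem_filter]; exact ⟨mem_univ _, h2⟩) hv
      · exact h2
    obtain ⟨u, hu⟩ := Set.ncard_eq_one.1 h1
    have h2 : v ∈ MulAction.orbit G v := MulAction.mem_orbit_self v
    have h3 : (a : G) • v ∈ MulAction.orbit G v := MulAction.mem_orbit _ _
    rw [hu, Set.mem_singleton_iff] at h2 h3
    change (a : G) • v = v
    rw [h3, h2]
  have hcomm : ∀ a b : Subgroup.zpowers c, a * b = b * a := fun a b => by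
      obtain ⟨i, hi⟩ := Subgroup.mem_zpowers_iff.1 a.2
      obtain ⟨j, hj⟩ := Subgroup.mem_zpowers_iff.1 b.2
      apply Subtype.ext
      rw [Subgroup.coe_mul, Subgroup.coe_mul, ← hi, ← hj, ← zpow_add, ← zpow_add, add_comm]
  have horbits := orbits_one (V := V) (A := Subgroup.zpowers c) W hfree' hfix
  have hbW' : b ∈ W := mem_filter.2 ⟨mem_univ _, hbW⟩
  obtain ⟨hCk, h5⟩ := (h δ hδ).2 k hk
  have hq : (orbits (Subgroup.zpowers c) V 1 : ℝ) ≤ B * w / m := by
    rw [le_div_iff₀ hm0]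
    have h1 : (0 : ℝ) ≤ (orbits (Subgroup.zpowers c) V 1 : ℝ) := Nat.cast_nonneg _
    have h2 : ((orbits (Subgroup.zpowers c) V 1 * Nat.card (Subgroup.zpowers c) : ℕ) : ℝ) ≤ w := by
      rw [hwW]
      exact_mod_cast horbits
    push_cast at h2
    calc (orbits (Subgroup.zpowers c) V 1 : ℝ) * m
        ≤ (orbits (Subgroup.zpowers c) V 1 : ℝ) * (B * (Nat.card (Subgroup.zpowers c) : ℝ)) :=
          mul_le_mul_of_nonneg_left hc h1
      _ = B * ((orbits (Subgroup.zpowers c) V 1 : ℝ) * (Nat.card (Subgroup.zpowers c) : ℝ)) := by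
          ring
      _ ≤ B * w := mul_le_mul_of_nonneg_left h2 hB0.le
  have hCA : C δ k ≤ Nat.card (Subgroup.zpowers c) := by
    have h1 : (C δ k : ℝ) * B ≤ (Nat.card (Subgroup.zpowers c) : ℝ) * B := by
      calc (C δ k : ℝ) * B ≤ m := hCm
        _ ≤ B * (Nat.card (Subgroup.zpowers c) : ℝ) := hc
        _ = _ := by ring
    exact_mod_cast le_of_mul_le_mul_right h1 hB0
  obtain ⟨E, hE, hEc, hEu⟩ := h5 V (Subgroup.zpowers c) H hcomm hCA hunif
    (fun a e he => hinv a.1 e he) b (fun a ha => hfree' a b hbW' ha) (by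
      refine lt_of_le_of_lt ?_ hb
      have h1 : (orbits (Subgroup.zpowers c) V 1 : ℝ) ^ (1 + δ) ≤ (B * w / m) ^ (1 + δ) :=
        Real.rpow_le_rpow (Nat.cast_nonneg _) hq (by linarith)
      exact mul_le_mul_of_nonneg_left h1 (by positivity))
  -- enlarge the union to `k` vertices
  have hK1 : 1 ≤ K δ := (h δ hδ).1
  have h1 : (E.biUnion id).card ≤ k := by
    have e1 : (3 - 2) * (k + k / K δ) = k + k / K δ := by omega
    rw [e1] at hEu
    have h2 : k / K δ * K δ ≤ k := Nat.div_mul_le_self k (K δ)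
    by_contra hcon
    push Not at hcon
    have h3 : K δ * (k + 1) ≤ K δ * (E.biUnion id).card := Nat.mul_le_mul_left _ hcon
    have h4 : K δ * (k + k / K δ) = K δ * k + k / K δ * K δ := by ring
    rw [h4] at hEu
    have h6 : K δ * (k + 1) = K δ * k + K δ := by ring
    generalize k / K δ = d at *
    omega
  have hkV : k ≤ Fintype.card V := by
    -- the orbit of `b` has at least `C δ k` elements
    have h2 : C δ k ≤ (MulAction.orbit G b).ncard := by
      rw [hbW]
      have h3 : (C δ k : ℝ) ≤ m := by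
        have h4 : (0 : ℝ) ≤ (C δ k : ℝ) := Nat.cast_nonneg _
        nlinarith
      exact_mod_cast h3
    have h3 : (MulAction.orbit G b).ncard ≤ Fintype.card V := by
      rw [← Nat.card_eq_fintype_card, ← Set.ncard_univ]
      exact Set.ncard_le_ncard (Set.subset_univ _) (Set.toFinite _)
    nlinarith
  obtain ⟨S, hS1, hS2⟩ := exists_superset_card_eq h1 hkV
  refine ⟨S, hS2, ?_⟩
  rw [← hEc]
  apply card_le_card
  intro e he
  rw [mem_filter]
  exact ⟨hE he, (subset_biUnion_of_mem id he).trans hS1⟩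

/-- all but few orders are good -/
theorem few_triple {K : ℝ → ℕ} {C : ℝ → ℕ → ℕ}
    (h : ∀ (δ : ℝ), 0 < δ →
    1 ≤ K δ ∧ ∀ k : ℕ, K δ ≤ k → k * k + 1 ≤ C δ k ∧ ∀ (V A : Type) [Fintype V] [DecidableEq V]
      [Group A] [MulAction A V] (H : Finset (Finset V)), (∀ a b : A, a * b = b * a) →
      C δ k ≤ Nat.card A →
      (∀ e ∈ H, e.card = 3) → (∀ (a : A), ∀ e ∈ H, e.image (fun x => a • x) ∈ H) →
      ∀ b : V, (∀ a : A, a • b = b → a = 1) →
      (C δ k : ℝ) * (orbits A V 1 : ℝ) ^ (1 + δ) < (#{e ∈ H | b ∈ e} : ℕ) →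
      ∃ E ⊆ H, E.card = k + k / K δ ∧
        K δ * (E.biUnion id).card + (k + k / K δ) ≤ K δ * ((3 - 2) * (k + k / K δ)))
    (η : ℝ) (hη : 0 < η) : ∃ M : ℕ, ∀ x s : ℕ, 8 ≤ x → 1 ≤ s →
      ({m : ℕ | 1 ≤ m ∧ m ≤ x ∧ ¬ SparseTriple K C m s ((s * Real.log x) ^ M)}.ncard : ℝ) ≤
        η * x := by
  obtain ⟨M, hM⟩ := Pool.Agent.TH669.AD.few_bad_pow η hη
  refine ⟨M, fun x s hx hs => ?_⟩
  obtain ⟨y, hsy, hU, hy⟩ := hM x s hx hs
  refine le_trans ?_ hy
  have hfin : {m : ℕ | 1 ≤ m ∧ m ≤ x ∧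
        ¬ Pool.Agent.TH669.AD.GoodDeg y s (((s : ℝ) * Real.log x) ^ M) m}.Finite :=
    (Set.finite_Icc 1 x).subset fun n hn => ⟨hn.1, hn.2.1⟩
  refine Nat.cast_le.2 (Set.ncard_le_ncard ?_ hfin)
  rintro m ⟨h1, h2, h3⟩
  exact ⟨h1, h2, fun hg => h3 (triple_of_good h hU hsy hg h1)⟩

end Pool.Agent.TH468.BA
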